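import Pool.Agent.Helper10.RC.Homs

/-!
# MP_b55b7c_an, packet Mp: entrywise images under an injective *-homomorphism
-/

open scoped ENNReal NNReal InnerProductSpace ComplexOrder
open Filter Topology

attribute [-instance] CStarMatrix.instAlgebra CStarMatrix.instModule CStarMatrix.instSMul
  CStarMatrix.instMulAction CStarMatrix.instDistribMulAction

set_option linter.unusedSectionVars false

noncomputable section
namespace RC
universe u
namespace H62

variable {A : Type u} [CStarAlgebra A] [PartialOrder A] [StarOrderedRing A]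
variable {B : Type u} [CStarAlgebra B] [PartialOrder B] [StarOrderedRing B]
variable {ι κ μ : Type} [Fintype ι] [DecidableEq ι] [Fintype κ] [DecidableEq κ]
  [Fintype μ] [DecidableEq μ]

theorem mp_apply (j : B →⋆ₐ[ℂ] A) (x : CStarMatrix ι κ B) (i : ι) (k : κ) :
    mp j x i k = j (x i k) := rfl

theorem mp_mul (j : B →⋆ₐ[ℂ] A) (x : CStarMatrix ι κ B) (y : CStarMatrix κ μ B) :
    mp j (x * y) = mp j x * mp j y := by
  ext i k
  rw [mp_apply, CStarMatrix.mul_apply, CStarMatrix.mul_apply, map_sum]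
  refine Finset.sum_congr rfl fun l _ => ?_
  rw [map_mul]
  rfl

theorem mp_conj (j : B →⋆ₐ[ℂ] A) (x : CStarMatrix ι κ B) :
    mp j x.conjTranspose = (mp j x).conjTranspose := by
  ext i k
  change j (star (x k i)) = star (j (x k i))
  rw [map_star]

theorem mp_sub (j : B →⋆ₐ[ℂ] A) (x y : CStarMatrix ι κ B) :
    mp j (x - y) = mp j x - mp j y := by
  ext i k
  change j (x i k - y i k) = j (x i k) - j (y i k)
  rw [map_sub]

theorem mp_inj (j : B →⋆ₐ[ℂ] A) (hj : Function.Injective j) :
    Function.Injective (mp j : CStarMatrix ι κ B → CStarMatrix ι κ A) := by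
  intro x y h
  ext i k
  apply hj
  exact congrFun (congrFun h i) k

/-- entrywise application as a *-homomorphism -/
def mpH (ι : Type) [Fintype ι] [DecidableEq ι] (j : B →⋆ₐ[ℂ] A) :
    CStarMatrix ι ι B →⋆ₐ[ℂ] CStarMatrix ι ι A where
  toFun := mp j
  map_one' := by
    ext i k
    rw [mp_apply, CStarMatrix.one_apply, CStarMatrix.one_apply]
    split_ifs <;> simp
  map_mul' x y := mp_mul j x y
  map_zero' := by
    ext i k
    rw [mp_apply]; simp
  map_add' x y := by
    ext i k
    change j (x i k + y i k) = j (x i k) + j (y i k)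
    rw [map_add]
  commutes' c := by
    ext i k
    rw [cm_algebraMap_apply, mp_apply, cm_algebraMap_apply]
    split_ifs
    · exact j.commutes c
    · simp
  map_star' x := mp_conj j x

theorem mpH_apply (j : B →⋆ₐ[ℂ] A) (x : CStarMatrix ι ι B) : mpH ι j x = mp j x := rfl

theorem mp_norm (j : B →⋆ₐ[ℂ] A) (hj : Function.Injective j) (x : CStarMatrix ι ι B) :
    ‖mp j x‖ = ‖x‖ :=
  NonUnitalStarAlgHom.norm_map (mpH ι j) (mp_inj j hj) x

theorem mp_cfc (j : B →⋆ₐ[ℂ] A) (f : ℝ → ℝ) (hf : Continuous f) (x : CStarMatrix ι ι B)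
    (hx : IsSelfAdjoint x) : mp j (cfc f x) = cfc f (mp j x) :=
  starHom_cfc (mpH ι j) f hf x hx

theorem mp_nonneg_iff (j : B →⋆ₐ[ℂ] A) (hj : Function.Injective j) (x : CStarMatrix ι ι B) :
    0 ≤ x ↔ 0 ≤ mp j x := by
  constructor
  · intro h
    exact map_nonneg (mpH ι j) h
  · intro h
    have hsa : IsSelfAdjoint x := by
      have h1 : star (mp j x) = mp j x := h.isSelfAdjoint
      have h2 : mp j (star x) = mp j x := by
        rw [← h1]
        exact mp_conj j x
      exact mp_inj j hj h2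
    have h3 : mp j (cut x 0) = mp j x := by
      unfold cut
      rw [mp_cfc j _ (by fun_prop) x hsa]
      exact cut_zero h
    have h4 : cut x 0 = x := mp_inj j hj h3
    rw [← h4]
    exact cut_nonneg x 0

end H62

theorem mpP : MpP.{u} := by
  intro A _ _ _ B _ _ _ j hj ι κ _ _ _ _ x y
  refine ⟨H62.mp_nonneg_iff j hj x, H62.mp_norm j hj x, fun h ε hε => ?_,
    fun f hf hx => H62.mp_cfc j f hf x hx⟩
  obtain ⟨v, hv⟩ := h ε hε
  refine ⟨mp j v, ?_⟩
  rw [← H62.mp_conj, ← H62.mp_mul, ← H62.mp_mul, ← H62.mp_sub, H62.mp_norm j hj]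
  exact hv

end RC

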